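import Pool.Agent.H207.BT.Asm
import Pool.Agent.H207.BT.Stm5

/-!
# Project BT, second part: assembly (Collet-Eckmann maps are limits of critically preperiodic maps)

Project BT by helper207 (statements, `Asm.lean`); assembly of the part with periodic goals: helper46.
-/

set_option autoImplicit false

open Topology Filter Metric Set MeasureTheory Polynomial

namespace Pool.Agent.H46.BT

open Pool.Agent.H790R3.RB Pool.Agent.H211.HY Pool.Agent.H207.BT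

theorem asm_settg (hTRAN : S_TRANG) (hCLOSE : S_CLOSEG) (hTG4 : S_TG4) {d k : ℕ} {x₀ : CV d}
    {c₀ : Fin k → ℂ} {m : Fin k → ℕ} {X : (Fin k → ℂ) → CV d} {c : Fin k → (Fin k → ℂ) → ℂ}
    {ρ' C K μ : ℝ} {κ : Fin k → ℂ} {xx : Fin k → ℕ → ℝ} (h : Conc x₀ c₀ m X c ρ' C K μ κ xx)
    {γ : (Fin k → ℂ) → ℂ × ℂ} (hγd : DifferentiableOn ℂ γ (ball 0 ρ'))
    (hγ0 : ∀ s ∈ ball (0 : Fin k → ℂ) ρ', γ s ≠ 0)
    (hγc : ∀ p : ℂ × ℂ, p ≠ 0 → wr x₀ p = 0 → ∀ n : ℕ, cr ((hF x₀)^[n + 1] p) (γ 0) ≠ 0) :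
    ∃ η B : ℝ, Sett (fun i => cf x₀ X (c₀ i)) (fun i => cv x₀ X (c₀ i) (c i))
      (fun i => cz x₀ (c₀ i)) xx ρ' C K μ κ m (RPg x₀ X c₀ γ) η B := by
  obtain ⟨η, hη, B, hB, hcl⟩ := hCLOSE d k x₀ c₀ m X c ρ' C K μ κ xx h
  refine ⟨η, B, ⟨h.good, h.fac.pos, hη, hB, ?_, ?_, ?_⟩⟩
  · intro i N s w hs hn hR
    exact hTRAN d k x₀ c₀ m X c ρ' C K μ κ xx h γ i N s w (hγ0 s (mem_ball_zero_iff.2 hs)) hs hn hR
  · intro i n hin
    exact hcl γ i n hγ0 hin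
  · intro ε hε hε1
    obtain ⟨ρ₁, hρ₁, -, L, hq⟩ := hTG4 d k x₀ c₀ m X c ρ' γ h.hd h.nd h.leo h.nrm.1 h.fac
      h.fami hγd hγ0 hγc ε hε hε1
    refine ⟨ρ₁, hρ₁, L, fun i n => ?_⟩
    obtain ⟨q, hq1, hq2, hq3, hq4⟩ := hq (tau (qo x₀ (c₀ i) (n + 1))) (cz x₀ (c₀ i) n) norm_zc
    exact ⟨q, hq1, hq2, hq3, hq4⟩

/-- the solution, in the concrete setting -/
theorem asm_solg (hTRAN : S_TRANG) (hCLOSE : S_CLOSEG) (hTG4 : S_TG4) (hTOP : S_TOP)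
    (hSOLVE3 : S_SOLVE3) {d k : ℕ} {x₀ : CV d}
    {c₀ : Fin k → ℂ} {m : Fin k → ℕ} {X : (Fin k → ℂ) → CV d} {c : Fin k → (Fin k → ℂ) → ℂ}
    {ρ' C K μ : ℝ} {κ : Fin k → ℂ} {xx : Fin k → ℕ → ℝ} (h : Conc x₀ c₀ m X c ρ' C K μ κ xx)
    {γ : (Fin k → ℂ) → ℂ × ℂ} (hγd : DifferentiableOn ℂ γ (ball 0 ρ'))
    (hγ0 : ∀ s ∈ ball (0 : Fin k → ℂ) ρ', γ s ≠ 0)
    (hγc : ∀ p : ℂ × ℂ, p ≠ 0 → wr x₀ p = 0 → ∀ n : ℕ, cr ((hF x₀)^[n + 1] p) (γ 0) ≠ 0)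
    {r₁ : ℝ} (hr₁ : 0 < r₁) : ∃ s : Fin k → ℂ, ‖s‖ < r₁ ∧ ‖s‖ < ρ' ∧
      ∀ i, RPg x₀ X c₀ γ i 0 s (cv x₀ X (c₀ i) (c i) s) := by
  have hρ' : 0 < ρ' := h.fami.ρ0
  obtain ⟨η, B, hS⟩ := asm_settg hTRAN hCLOSE hTG4 h hγd hγ0 hγc
  have hall := hTOP k _ _ _ _ _ _ _ _ _ _ _ _ _ hS
  obtain ⟨s, hs, hsol⟩ := hSOLVE3 k (fun i => cf x₀ X (c₀ i)) (fun i => cv x₀ X (c₀ i) (c i))
    (fun i => cz x₀ (c₀ i)) xx ρ' C K μ κ h.good (RPg x₀ X c₀ γ) hall (min r₁ ρ')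
    (lt_min hr₁ hρ')
  have hs1 := hs.trans_le (min_le_left _ _)
  have hs2 := hs.trans_le (min_le_right _ _)
  refine ⟨s, hs1, hs2, fun i => ?_⟩
  obtain ⟨N, hN1, hN2⟩ := hsol i
  exact hTRAN d k x₀ c₀ m X c ρ' C K μ κ xx h γ i N s (cv x₀ X (c₀ i) (c i))
    (hγ0 s (mem_ball_zero_iff.2 hs2)) hs2 hN2 hN1

/-- periodic directions: multiples of the period -/
theorem per_mul {d : ℕ} {z : CV d} (hz : ND z) {p : ℂ × ℂ} (hp : p ≠ 0) {n : ℕ}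
    (h : cr ((hF z)^[n] p) p = 0) (t : ℕ) : cr ((hF z)^[n * t] p) p = 0 := by
  induction t with
  | zero => simpa using cr_self p
  | succ t ih =>
    rw [Nat.mul_succ, Function.iterate_add_apply]
    exact cr_trans (hz.iter_ne _ hp) (cr_iter z (n * t) (hz.iter_ne n hp) hp h) ih

/-- periodic directions: the iterates depend only on the residue class -/
theorem per_mod {d : ℕ} {z : CV d} (hz : ND z) {p : ℂ × ℂ} (hp : p ≠ 0) {n : ℕ}
    (h : cr ((hF z)^[n] p) p = 0) (j : ℕ) :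
    cr ((hF z)^[j] p) ((hF z)^[j % n] p) = 0 := by
  have h1 := per_mul hz hp h (j / n)
  have h2 := cr_iter z (j % n) (hz.iter_ne _ hp) hp h1
  rw [← Function.iterate_add_apply, Nat.mod_add_div] at h2
  exact h2

/-- A map all of whose critical points are mapped (by iterates `≥ 1`) to a cycle without critical
points is critically strictly preperiodic. -/
theorem spre_of {d : ℕ} (hd : 2 ≤ d) {z : CV d} (hz : ND z) {q : ℂ × ℂ} (hq : q ≠ 0) {n : ℕ}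
    (hn : 0 < n) (hper : cr ((hF z)^[n] q) q = 0) (hnc : ∀ l < n, wr z ((hF z)^[l] q) ≠ 0)
    (hh : ∀ p : ℂ × ℂ, p ≠ 0 → wr z p = 0 → ∃ m : ℕ, cr ((hF z)^[m] p) q = 0) : SPre z := by
  intro p hp hw
  obtain ⟨m, hm⟩ := hh p hp hw
  refine ⟨⟨m, n, hn, ?_⟩, fun N hN h0 => ?_⟩
  · have h1 := cr_iter z n (hz.iter_ne m hp) hq hm
    rw [← Function.iterate_add_apply, Nat.add_comm n m] at h1
    have h2 : cr q ((hF z)^[m] p) = 0 := by rw [cr_comm, hm, neg_zero]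
    exact cr_trans hq (cr_trans (hz.iter_ne n hq) h1 hper) h2
  · -- `p` is parallel to a point of the cycle of `q`
    have h1 := per_mul hz hp h0 m
    have hle : m ≤ N * m := Nat.le_mul_of_pos_left m hN
    obtain ⟨j, hj⟩ := Nat.exists_eq_add_of_le hle
    rw [hj, Nat.add_comm m j, Function.iterate_add_apply] at h1
    have h2 := cr_iter z j (hz.iter_ne m hp) hq hm
    have h3 := per_mod hz hq hper j
    have h4 : cr p ((hF z)^[j] ((hF z)^[m] p)) = 0 := by rw [cr_comm, h1, neg_zero]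
    have h5 : cr p ((hF z)^[j % n] q) = 0 :=
      cr_trans (hz.iter_ne j hq) (cr_trans (hz.iter_ne j (hz.iter_ne m hp)) h4 h2) h3
    refine hnc (j % n) (Nat.mod_lt _ hn) ?_
    refine wr_of_par hd z (hz.iter_ne _ hq) hp ?_ hw
    rw [cr_comm, h5, neg_zero]

/-- the normalized situation -/
theorem asm_nrm (hTRAN : S_TRANG) (hCLOSE : S_CLOSEG) (hTG4 : S_TG4) (hTOP : S_TOP)
    (hSOLVE3 : S_SOLVE3) (hPER : S_PER) (hMOT : S_MOT) (hDCR : S_DCR) (hLEO : S_LEO)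
    (hFACT : S_FACT) (hUNIF : S_UNIF) (hDIST : S_DIST) (hFUNC : S_FUNC)
    (hFAM : S_FAM) (hORBS : S_ORBS) (hDUAL : S_DUAL) (hINV : S_INV) (hL1 : S_L1)
    (hZERO : S_ZERO) (hLINE : S_LINE) {d : ℕ} {x : CV d} (hx : Hyp x) (hn : Nrm x) {ε : ℝ}
    (hε : 0 < ε) : ∃ z : CV d, ‖z - x‖ < ε ∧ ND z ∧ SPre z := by
  have hd := hx.hd
  have hdcr : DCR x := hDCR d x hd hx.nd hx.ce hx.jul
  have hleo : LEO x := hLEO d x hd hx.nd hx.ce hdcr
  obtain ⟨k, c₀, m, hf⟩ := hFACT d x hd hn.1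
  obtain ⟨b, hb1, hb2⟩ := asm_dir hINV hL1 hZERO hLINE hORBS hDUAL hx hn hleo hf
  have hQ : ∀ i, (pol x 1).eval (c₀ i) ≠ 0 := by
    intro i
    have h1 := hn.2 (c₀ i, 1) (one_ne _) (hf.crit i) 1
    rw [Function.iterate_one, hF_pol] at h1
    exact h1
  obtain ⟨ρ, X, c, hX, hXb⟩ := hFAM d k x c₀ m b hd hx.nd hn.1 hf hQ hb1
  obtain ⟨ρ', C, K, μ, κ, xx, hρ', hρ'ρ, hgood, hstep, hval, hxx⟩ :=
    good_of hUNIF hDIST hFUNC hx hn hf hX (fun i l => by rw [hXb l]; exact hb2 i l)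
  obtain ⟨ρU, hρU, hρUρ, MU, hU⟩ := hUNIF d k x X ρ hd hx.nd hX.ρ0 hX.dif hX.at0
  obtain ⟨ξ, n, hn0, hper, hmul, hout⟩ := hPER d x hx hn
  obtain ⟨ρM, hρM, hρMρ, γ, hγd, hγ0, hγp⟩ :=
    hMOT d k x X ρ ξ n hd hx.nd hX.ρ0 hX.dif hX.at0 hn0 hper hmul
  set ϱ := min (min ρ' ρU) ρM with hϱ
  have hϱ0 : 0 < ϱ := lt_min (lt_min hρ' hρU) hρM
  have hϱ1 : ϱ ≤ ρ' := (min_le_left _ _).trans (min_le_left _ _)
  have hϱ2 : ϱ ≤ ρU := (min_le_left _ _).trans (min_le_right _ _)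
  have hϱ3 : ϱ ≤ ρM := min_le_right _ _
  have hϱρ : ϱ ≤ ρ := hϱ1.trans hρ'ρ
  have hfami : Fami x k c₀ m X c ϱ :=
    ⟨hϱ0, hX.dif.mono (ball_subset_ball hϱρ), hX.at0,
      fun i => (hX.cdf i).mono (ball_subset_ball hϱρ), hX.c0,
      fun s hs => hX.nd s (ball_subset_ball hϱρ hs), fun s hs => hX.ne s (ball_subset_ball hϱρ hs),
      fun s hs => hX.fac s (ball_subset_ball hϱρ hs)⟩
  have hconc : Conc x c₀ m X c ϱ C K μ κ xx := by
    refine ⟨hd, hx.nd, hx.ce, hleo, hn, hf, hfami, fun i => ?_, ?_, ?_, fun i n => (hxx i n).2, ?_⟩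
    · have hg := hgood i
      exact
        { ρ0 := hϱ0
          C1 := hg.C1
          c0 := hg.c0
          μ1 := hg.μ1
          κ0 := hg.κ0
          v0 := hg.v0
          vd := hg.vd.mono (ball_subset_ball hϱ1)
          vb := fun s hs => hg.vb s (ball_subset_ball hϱ1 hs)
          fz := hg.fz
          fd := fun n => (hg.fd n).mono (Set.prod_mono (ball_subset_ball hϱ1) (ball_subset_ball hϱ1))
          fb := fun n s hs w hw => hg.fb n s (ball_subset_ball hϱ1 hs) w (ball_subset_ball hϱ1 hw)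
          xx := hg.xx
          dx := hg.dx
          ds := fun n s hs w hw => hg.ds n s (ball_subset_ball hϱ1 hs) w (ball_subset_ball hϱ1 hw)
          gr := hg.gr
          fn := hg.fn }
    · exact fun i n s hs w hw =>
        hstep i n s (ball_subset_ball hϱ1 hs) w (ball_subset_ball hϱ1 hw)
    · exact fun i s hs => hval i s (ball_subset_ball hϱ1 hs)
    · intro i n s hs w hw
      have h1 := (hU (qo x (c₀ i) (n + 1)) (qo_ne hx.nd _ _) s (ball_subset_ball hϱ2 hs) w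
        (ball_subset_ball hϱ2 hw)).1
      rw [← qo_succ] at h1
      exact h1
  have h0ϱ : (0 : Fin k → ℂ) ∈ ball (0 : Fin k → ℂ) ϱ := mem_ball_self hϱ0
  have hXd : DifferentiableAt ℂ X 0 := hfami.dif.differentiableAt (isOpen_ball.mem_nhds h0ϱ)
  have hγd' : DifferentiableOn ℂ γ (ball 0 ϱ) := hγd.mono (ball_subset_ball hϱ3)
  have hγat : DifferentiableAt ℂ γ 0 := hγd'.differentiableAt (isOpen_ball.mem_nhds h0ϱ)
  -- closeness
  have hcl : ∀ᶠ s in 𝓝 (0 : Fin k → ℂ), ‖X s - x‖ < ε := by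
    have h1 : Tendsto (fun s => ‖X s - x‖) (𝓝 0) (𝓝 ‖X 0 - x‖) :=
      (hXd.continuousAt.sub continuousAt_const).norm
    rw [hX.at0, sub_self, norm_zero] at h1
    exact h1.eventually_lt_const hε
  -- no critical points in the cycle
  have hnc0 : ∀ l : ℕ, wr x ((hF x)^[l] (ξ, 1)) ≠ 0 := by
    intro l h0
    refine hout _ (hx.nd.iter_ne l (one_ne ξ)) h0 (l * (n - 1)) ?_
    have h1 := per_mul hx.nd (one_ne ξ) hper l
    rw [← Function.iterate_add_apply]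
    have e : l * (n - 1) + l = n * l := by
      obtain ⟨n', rfl⟩ : ∃ n', n = n' + 1 := ⟨n - 1, by omega⟩
      simp only [Nat.add_sub_cancel]
      ring
    rw [e]
    exact h1
  have hnc : ∀ᶠ s in 𝓝 (0 : Fin k → ℂ), ∀ l ∈ Finset.range n,
      wr (X s) ((hF (X s))^[l] (γ s, 1)) ≠ 0 := by
    rw [Filter.eventually_all_finset]
    intro l _
    have h1 : ContinuousAt (fun s : Fin k → ℂ => (X s, ((γ s, 1) : ℂ × ℂ))) 0 :=
      hXd.continuousAt.prodMk (hγat.continuousAt.prodMk continuousAt_const)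
    have h2 : ContinuousAt (fun s : Fin k → ℂ => (hF (X s))^[l] (γ s, 1)) 0 :=
      ContinuousAt.comp (f := fun s : Fin k → ℂ => (X s, ((γ s, 1) : ℂ × ℂ)))
        (g := fun q : CV d × (ℂ × ℂ) => (hF q.1)^[l] q.2)
        (hF_iter_continuous d l).continuousAt h1
    have h3 : ContinuousAt (fun s : Fin k → ℂ => wr (X s) ((hF (X s))^[l] (γ s, 1))) 0 :=
      ContinuousAt.comp (f := fun s : Fin k → ℂ => (X s, (hF (X s))^[l] (γ s, 1)))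
        (g := fun q : CV d × (ℂ × ℂ) => wr q.1 q.2)
        (wr_contDiff d 1).continuous.continuousAt (hXd.continuousAt.prodMk h2)
    refine h3.eventually_ne ?_
    rw [hX.at0, hγ0]
    exact hnc0 l
  obtain ⟨r, hr, hr'⟩ := Metric.eventually_nhds_iff_ball.1 (hcl.and hnc)
  obtain ⟨s, hs1, hs2, hs3⟩ := asm_solg hTRAN hCLOSE hTG4 hTOP hSOLVE3 hconc
    (γ := fun s => ((γ s, 1) : ℂ × ℂ)) (hγd'.prodMk (differentiableOn_const _))
    (fun s _ => one_ne (γ s))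
    (fun p hp hw j => by
      simp only [hγ0]
      exact hout p hp hw (j + 1)) hr
  have hsr : s ∈ ball (0 : Fin k → ℂ) r := mem_ball_zero_iff.2 hs1
  have hsϱ : s ∈ ball (0 : Fin k → ℂ) ϱ := mem_ball_zero_iff.2 hs2
  obtain ⟨hA, hB⟩ := hr' s hsr
  have hNDs := hfami.nd s hsϱ
  refine ⟨X s, hA, hNDs, spre_of hd hNDs (one_ne (γ s)) hn0
    (hγp s (ball_subset_ball hϱ3 hsϱ)) (fun l hl => hB l (Finset.mem_range.2 hl)) ?_⟩
  intro p hp hw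
  obtain ⟨i, hi⟩ := crit_dir hd (hfami.ne s hsϱ) (hfami.fac s hsϱ) hp hw
  obtain ⟨N, -, hN2⟩ := hs3 i
  have hv := hconc.val i s hsϱ
  have hpar : cr ((hF (X s))^[N + 1] (c i s, 1))
      ((hF (X s))^[N] (iot (tau (qo x (c₀ i) 1)) (cv x X (c₀ i) (c i) s))) = 0 := by
    have h4 := cr_iter (X s) N (hNDs.iter_ne 1 (one_ne (c i s))) (iot_ne _ _) hv
    rw [Function.iterate_succ_apply]
    exact h4
  have h5 := cr_iter (X s) (N + 1) hp (one_ne (c i s)) hi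
  exact ⟨N + 1, cr_trans (hNDs.iter_ne _ (one_ne (c i s))) h5
    (cr_trans (hNDs.iter_ne N (iot_ne _ _)) hpar hN2)⟩

/-- all maps with Collet-Eckmann critical points -/
theorem asm_all (hTRAN : S_TRANG) (hCLOSE : S_CLOSEG) (hTG4 : S_TG4) (hTOP : S_TOP)
    (hSOLVE3 : S_SOLVE3) (hPER : S_PER) (hMOT : S_MOT) (hDCR : S_DCR) (hLEO : S_LEO)
    (hFACT : S_FACT) (hUNIF : S_UNIF) (hDIST : S_DIST) (hFUNC : S_FUNC)
    (hFAM : S_FAM) (hORBS : S_ORBS) (hDUAL : S_DUAL) (hINV : S_INV) (hL1 : S_L1)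
    (hZERO : S_ZERO) (hLINE : S_LINE) (hLEOJ : S_LEOJ) (hDEEPJ : S_DEEPJ) (hNFE : S_NFE)
    (hNORM6 : S_NORM6) (hLATL : S_LATL) {d : ℕ} {x : CV d} (hd : 2 ≤ d) (hnd : ND x)
    (hce : CE x) {ε : ℝ} (hε : 0 < ε) : ∃ z : CV d, ‖z - x‖ < ε ∧ ND z ∧ SPre z := by
  by_cases hl : Lat x
  · exact ⟨x, by simpa using hε, hnd, hLATL d x hd hnd hce hl⟩
  · refine hNORM6 d x ⟨hd, hnd, hce, hl⟩ (fun y hy hny ε' hε' => ?_) ε hε
    exact asm_nrm hTRAN hCLOSE hTG4 hTOP hSOLVE3 hPER hMOT hDCR hLEO hFACT hUNIF hDIST hFUNC hFAM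
      hORBS hDUAL hINV hL1 hZERO hLINE (asm_jul hLEOJ hDEEPJ hNFE hFACT hy hny) hny hε'

end Pool.Agent.H46.BT
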