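import Pool.Agent.H207.BT.Stm5
import Pool.Graph.R_seed8.H790R3.RB.TINJL
import Pool.Graph.R_seed8.H790R3.RB.TPQ
import Pool.Graph.R_seed8.H790R3.RB.TSP
import Pool.Graph.R_seed8.H790R3.RB.TWR

/-!
# Project BT, second part: translation to the Riemann sphere (by helper46)
-/

set_option autoImplicit false

open Topology Filter Metric Set MeasureTheory Polynomial

namespace Pool.Agent.H46.BT

open Pool.Agent.H790R3.RB Pool.Agent.H211.HY Pool.Agent.H207.BT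

/-- poles are mapped to infinity -/
theorem sp_pole {d : ℕ} (x : CV d) {z : ℂ} (h : (pol x 1).eval z = 0) :
    sp x (z : OnePoint ℂ) = OnePoint.infty := by
  unfold sp
  rw [SP.hc_coe, PQ.hF_one, h]
  exact SP.pr_zero rfl

/-- a critically strictly preperiodic map, on the sphere -/
theorem sp_spre {d : ℕ} (hd : 2 ≤ d) {x : CV d} (hx : ND x) (h : SPre x) (c : OnePoint ℂ)
    (hc' : ¬ ∃ U ∈ nhds c, Set.InjOn (sp x) U) :
    (∃ m n : ℕ, 0 < n ∧ (sp x)^[m + n] c = (sp x)^[m] c) ∧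
      ∀ n : ℕ, 0 < n → (sp x)^[n] c ≠ c := by
  obtain ⟨-, hsp, hprcr, hhc, -⟩ := SP d x (by omega) hx
  have hw : wr x (hc c) = 0 := by
    by_contra hne
    obtain ⟨U, hU, hinj⟩ := INJL SP WR d x (hc c) hd hx (hhc c).2 hne
    rw [(hhc c).1] at hU
    exact hc' ⟨U, hU, hinj⟩
  have hit : ∀ n : ℕ, (sp x)^[n] c = pr ((hF x)^[n] (hc c)) := by
    intro n
    rw [← hsp (hc c) (hhc c).2 n, (hhc c).1]
  obtain ⟨⟨m, n, hn, hmn⟩, hper⟩ := h (hc c) (hhc c).2 hw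
  refine ⟨⟨m, n, hn, ?_⟩, fun N hN h0 => ?_⟩
  · rw [hit, hit]
    exact (hprcr _ _ (hx.iter_ne _ (hhc c).2) (hx.iter_ne _ (hhc c).2)).2 hmn
  · refine hper N hN ?_
    rw [← hprcr _ _ (hx.iter_ne N (hhc c).2) (hhc c).2, ← hit, (hhc c).1]
    exact h0

end Pool.Agent.H46.BT
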