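import Pool.Agent.H207.BT.Fin
import Pool.Agent.H46.BT.Asm
import Pool.Agent.H46.BT.Sph
import Pool.Agent.H972.BT207.TRANG
import Pool.Agent.H65.BT207.CLOSEG
import Pool.Agent.H215.BT207.TG4
import Pool.Agent.H250.BT207.PER
import Pool.Agent.H738.BT207.RPL
import Pool.Agent.H111.BT207.CNT
import Pool.Agent.H722.BT207.MOT
import Pool.Agent.H593.BT207.NORM6
import Pool.Agent.H69.BT207.LATL

/-! Project BT, second part: the pieces put together (helper46) -/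

set_option autoImplicit false

namespace Pool.Agent.H46.BT

open Pool.Agent.H790R3.RB Pool.Agent.H211.HY Pool.Agent.H207.BT

theorem q_TRANG : S_TRANG := Pool.Agent.H972.BT207.t_TRANG p_DER
theorem q_CLOSEG : S_CLOSEG := Pool.Agent.H65.BT207.CLOSEG.t_CLOSEG q_DXM q_ROOT
theorem q_TG4 : S_TG4 := Pool.Agent.H215.BT207.t_TG4
theorem q_RPL : S_RPL := Pool.Agent.H738.BT207.t_RPL p_HITL p_SHJ p_LEOJ p_CHO
theorem q_CNT : S_CNT := Pool.Agent.H111.BT207.t_CNT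
theorem q_PER : S_PER := Pool.Agent.H250.BT207.t_PER q_RPL q_CNT p_FACT
theorem q_MOT : S_MOT := Pool.Agent.H722.BT207.t_MOT p_CHO
theorem q_NORM6 : S_NORM6 := Pool.Agent.H593.BT207.t_NORM6
theorem q_LATL : S_LATL := Pool.Agent.H69.BT207.t_LATL

/-- **Collet-Eckmann maps are limits of critically strictly preperiodic maps.** -/
theorem main_pre {d : ℕ} {x : CV d} (hd : 2 ≤ d) (hnd : ND x) (hce : CE x) {ε : ℝ}
    (hε : 0 < ε) : ∃ z : CV d, ‖z - x‖ < ε ∧ ND z ∧ SPre z :=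
  asm_all q_TRANG q_CLOSEG q_TG4 q_TOP q_SOLVE3 q_PER q_MOT p_DCR p_LEO p_FACT p_UNIF p_DIST p_FUNC
    p_FAM p_ORBS p_DUAL p_INV p_L1 p_ZERO p_LINE p_LEOJ p_DEEPJ p_NFE q_NORM6 q_LATL hd hnd hce hε

end Pool.Agent.H46.BT
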